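import Pool.Agent.V11227.CN4

/-!
# Deciding whether the core of a graph equals its nucleus is complete for parallel access to NP

The input is a finite simple graph, given by an adjacency matrix `M : List (List Bool)`;
`matGraph M` is the graph.  The question is whether `core = nucleus`.

The problem is complete, under polynomial-time many-one reductions, for the class `Θ₂ᵖ` of languages
decided in polynomial time with one round of parallel queries to `NP`; in particular it is both
`NP`-hard and `coNP`-hard.

Hardness is by reduction from the complement of the problem: given a list of pairs `(φ, ψ)` of
formulas, is there a pair with `φ` satisfiable and `ψ` unsatisfiable?  For each pair the graph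
contains the join of five graphs which encode `φ`, `ψ`, `ψ` and two independent sets; a large clique
joined to everything makes the nucleus empty.
-/

namespace Pool.Agent.Results.MP_54ee58_lc.CoreNucleusTheta2Complete

open Pool.Agent.NPC Pool.Agent.H622R2 Pool.Agent.Y650.TH Pool.Agent.V11227.CN

/-- Deciding `core(G) = nucleus(G)` is `NP`-hard and `coNP`-hard, and it is complete for the class
of languages decided in polynomial time with parallel queries to `NP`. -/
theorem result :
    NPHardP (fun M : List (List Bool) => core (matGraph M) = nucleus (matGraph M)) ∧
    CoNPHardP (fun M : List (List Bool) => core (matGraph M) = nucleus (matGraph M)) ∧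
    InTheta2 (lang (fun M : List (List Bool) => core (matGraph M) = nucleus (matGraph M))) ∧
    ∀ L : Set (List Bool), InTheta2 L →
      Reduces L (lang (fun M : List (List Bool) => core (matGraph M) = nucleus (matGraph M))) :=
  ⟨Pool.Agent.V11227.HardTh.npHard hard_CN, Pool.Agent.V11227.HardTh.coNPHard hard_CN, theta_CN,
    fun _ hL => Pool.Agent.Y650.TH.HardTh.reduces hard_CN hL⟩

end Pool.Agent.Results.MP_54ee58_lc.CoreNucleusTheta2Complete
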